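import Pool.Agent.Y116.UV.Defs

/-!
# The hypersurface `x y z = 1` is a torus
-/

set_option autoImplicit false

open MvPolynomial Pool.Agent.Y116.UV

namespace Pool.Agent.L5helper68.GO

variable (R : Type) [CommRing R]

/-- the trilinear form `x y z` -/
def one3 : Fin 1 → Fin 1 → Fin 1 → R := fun _ _ _ => 1

lemma tri_one3 : tri (one3 R) = X (Sum.inl 0) * X (Sum.inr (Sum.inl 0)) *
    X (Sum.inr (Sum.inr 0)) := by
  simp [tri, one3]

/-- the Laurent polynomials in two variables -/
abbrev L2 : Type := LaurentPolynomial (LaurentPolynomial R)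

/-- to the Laurent polynomials -/
noncomputable def toL : Hyp (one3 R) →ₐ[R] L2 R :=
  Ideal.Quotient.liftₐ _ (aeval (Sum.elim (fun _ => LaurentPolynomial.C (LaurentPolynomial.T 1))
    (Sum.elim (fun _ => LaurentPolynomial.T 1)
      (fun _ => LaurentPolynomial.C (LaurentPolynomial.T (-1)) * LaurentPolynomial.T (-1))) :
      Fin 1 ⊕ (Fin 1 ⊕ Fin 1) → L2 R)) (by
    intro a ha
    have h : Ideal.span {tri (one3 R) - 1} ≤ RingHom.ker (aeval (Sum.elim
      (fun _ => LaurentPolynomial.C (LaurentPolynomial.T 1))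
      (Sum.elim (fun _ => LaurentPolynomial.T 1)
      (fun _ => LaurentPolynomial.C (LaurentPolynomial.T (-1)) * LaurentPolynomial.T (-1))) :
      Fin 1 ⊕ (Fin 1 ⊕ Fin 1) → L2 R) : MvPolynomial (Fin 1 ⊕ (Fin 1 ⊕ Fin 1)) R →ₐ[R] _) := by
      rw [Ideal.span_le, Set.singleton_subset_iff, tri_one3]
      change aeval _ _ = (0 : L2 R)
      rw [map_sub, map_mul, map_mul, aeval_X, aeval_X, aeval_X, map_one]
      simp only [Sum.elim_inl, Sum.elim_inr]
      rw [mul_mul_mul_comm, ← map_mul, ← LaurentPolynomial.T_add, ← LaurentPolynomial.T_add]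
      simp
    exact h ha)

/-- the class of a variable -/
noncomputable abbrev hv (s : Fin 1 ⊕ (Fin 1 ⊕ Fin 1)) : Hyp (one3 R) := Ideal.Quotient.mk _ (X s)

lemma hv_mul : hv R (Sum.inl 0) * hv R (Sum.inr (Sum.inl 0)) * hv R (Sum.inr (Sum.inr 0)) = 1 := by
  have h : tri (one3 R) - 1 ∈ Ideal.span {tri (one3 R) - 1} := Ideal.mem_span_singleton_self _
  have h2 := Ideal.Quotient.eq_zero_iff_mem.mpr h
  rw [map_sub, map_one, sub_eq_zero] at h2
  have h3 : (Ideal.Quotient.mk (Ideal.span {tri (one3 R) - 1})) (tri (one3 R)) =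
      hv R (Sum.inl 0) * hv R (Sum.inr (Sum.inl 0)) * hv R (Sum.inr (Sum.inr 0)) := by
    conv_lhs => arg 2; rw [tri_one3]
    rw [map_mul, map_mul]
  exact h3.symm.trans h2

/-- the first unit -/
noncomputable def u1 : (Hyp (one3 R))ˣ where
  val := hv R (Sum.inl 0)
  inv := hv R (Sum.inr (Sum.inl 0)) * hv R (Sum.inr (Sum.inr 0))
  val_inv := by rw [← mul_assoc, hv_mul]
  inv_val := by rw [mul_comm, ← mul_assoc, hv_mul]

/-- the second unit -/
noncomputable def u2 : (Hyp (one3 R))ˣ where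
  val := hv R (Sum.inr (Sum.inl 0))
  inv := hv R (Sum.inl 0) * hv R (Sum.inr (Sum.inr 0))
  val_inv := by rw [← mul_assoc, mul_comm (hv R (Sum.inr (Sum.inl 0))), hv_mul]
  inv_val := by rw [mul_right_comm, hv_mul]

/-- from the Laurent polynomials -/
noncomputable def ofL : L2 R →ₐ[R] Hyp (one3 R) :=
  { LaurentPolynomial.eval₂ (LaurentPolynomial.eval₂ (algebraMap R (Hyp (one3 R))) (u1 R)) (u2 R) with
    commutes' := by
      intro r
      change LaurentPolynomial.eval₂ _ _ (algebraMap R (L2 R) r) = _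
      have h : algebraMap R (L2 R) r = LaurentPolynomial.C (LaurentPolynomial.C r) := rfl
      rw [h, LaurentPolynomial.eval₂_C, LaurentPolynomial.eval₂_C] }

lemma ofL_C (a : LaurentPolynomial R) : ofL R (LaurentPolynomial.C a) =
    LaurentPolynomial.eval₂ (algebraMap R (Hyp (one3 R))) (u1 R) a := by
  change LaurentPolynomial.eval₂ _ _ _ = _
  rw [LaurentPolynomial.eval₂_C]

lemma ofL_T (n : ℤ) : ofL R (LaurentPolynomial.T n) = ((u2 R ^ n : (Hyp (one3 R))ˣ) : Hyp (one3 R)) := by
  change LaurentPolynomial.eval₂ _ _ _ = _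
  rw [LaurentPolynomial.eval₂_T]

lemma ofL_CT (n : ℤ) : ofL R (LaurentPolynomial.C (LaurentPolynomial.T n)) =
    ((u1 R ^ n : (Hyp (one3 R))ˣ) : Hyp (one3 R)) := by
  rw [ofL_C, LaurentPolynomial.eval₂_T]

lemma toL_hv (s : Fin 1 ⊕ (Fin 1 ⊕ Fin 1)) : toL R (hv R s) = (Sum.elim
      (fun _ => LaurentPolynomial.C (LaurentPolynomial.T 1))
      (Sum.elim (fun _ => LaurentPolynomial.T 1)
      (fun _ => LaurentPolynomial.C (LaurentPolynomial.T (-1)) * LaurentPolynomial.T (-1))) :
      Fin 1 ⊕ (Fin 1 ⊕ Fin 1) → L2 R) s := by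
  change aeval _ (X s) = _
  rw [aeval_X]

lemma zpow_T {A : Type} [CommRing A] (v : (LaurentPolynomial A)ˣ)
    (hv : (v : LaurentPolynomial A) = LaurentPolynomial.T 1) (n : ℤ) :
    ((v ^ n : (LaurentPolynomial A)ˣ) : LaurentPolynomial A) = LaurentPolynomial.T n := by
  have hi : ((v⁻¹ : (LaurentPolynomial A)ˣ) : LaurentPolynomial A) = LaurentPolynomial.T (-1) := by
    rw [Units.inv_eq_of_mul_eq_one_right]
    rw [hv, ← LaurentPolynomial.T_add]
    simp
  induction n using Int.induction_on with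
  | zero => simp
  | succ n ih => rw [zpow_add_one, Units.val_mul, ih, hv, ← LaurentPolynomial.T_add]
  | pred n ih => rw [zpow_sub_one, Units.val_mul, ih, hi, ← LaurentPolynomial.T_add]; rfl

lemma toL_u1 (n : ℤ) : toL R ((u1 R ^ n : (Hyp (one3 R))ˣ) : Hyp (one3 R)) =
    LaurentPolynomial.C (LaurentPolynomial.T n) := by
  have hm : IsUnit (LaurentPolynomial.T 1 : LaurentPolynomial R) := LaurentPolynomial.isUnit_T 1
  have h1 : Units.map (toL R : Hyp (one3 R) →* L2 R) (u1 R) =
      Units.map (LaurentPolynomial.C : LaurentPolynomial R →+* L2 R).toMonoidHom hm.unit := by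
    apply Units.ext
    exact toL_hv R (Sum.inl 0)
  have h2 := congrArg (fun v => ((v ^ n : (L2 R)ˣ) : L2 R)) h1
  simp only [← map_zpow] at h2
  refine Eq.trans ?_ (h2.trans ?_)
  · rfl
  · change LaurentPolynomial.C ((hm.unit ^ n : (LaurentPolynomial R)ˣ) : LaurentPolynomial R) = _
    rw [zpow_T _ hm.unit_spec]

lemma toL_u2 (n : ℤ) : toL R ((u2 R ^ n : (Hyp (one3 R))ˣ) : Hyp (one3 R)) =
    LaurentPolynomial.T n := by
  have h1 := zpow_T (Units.map (toL R : Hyp (one3 R) →* L2 R) (u2 R))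
    (toL_hv R (Sum.inr (Sum.inl 0))) n
  rw [← map_zpow] at h1
  exact h1

lemma toL_alg (r : R) : toL R (algebraMap R (Hyp (one3 R)) r) =
    LaurentPolynomial.C (LaurentPolynomial.C r) := by
  rw [AlgHom.commutes]
  rfl

lemma toL_ofL_C (a : LaurentPolynomial R) : toL R (ofL R (LaurentPolynomial.C a)) =
    LaurentPolynomial.C a := by
  induction a using LaurentPolynomial.induction_on' with
  | add p q hp hq => rw [map_add, map_add, map_add, hp, hq]
  | C_mul_T n a =>
    rw [map_mul, map_mul, map_mul, ofL_CT, toL_u1, ofL_C, LaurentPolynomial.eval₂_C, toL_alg]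

/-- The ring of functions on `x y z = 1` is the ring of Laurent polynomials in two variables. -/
noncomputable def eqL : Hyp (one3 R) ≃ₐ[R] L2 R := by
  refine AlgEquiv.ofAlgHom (toL R) (ofL R) ?_ ?_
  · apply AlgHom.ext
    intro x
    change toL R (ofL R x) = x
    induction x using LaurentPolynomial.induction_on' with
    | add p q hp hq => rw [map_add, map_add, hp, hq]
    | C_mul_T n a => rw [map_mul, map_mul, ofL_T, toL_u2, toL_ofL_C]
  · apply Ideal.Quotient.algHom_ext
    apply MvPolynomial.algHom_ext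
    intro s
    change ofL R (toL R (hv R s)) = hv R s
    rw [toL_hv]
    rcases s with s | s | s
    · obtain rfl : s = 0 := Subsingleton.elim _ _
      rw [Sum.elim_inl, ofL_CT, zpow_one]
      rfl
    · obtain rfl : s = 0 := Subsingleton.elim _ _
      rw [Sum.elim_inr, Sum.elim_inl, ofL_T, zpow_one]
      rfl
    · obtain rfl : s = 0 := Subsingleton.elim _ _
      rw [Sum.elim_inr, Sum.elim_inr, map_mul, ofL_CT, ofL_T, zpow_neg_one, zpow_neg_one]
      change (hv R (Sum.inr (Sum.inl 0)) * hv R (Sum.inr (Sum.inr 0))) *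
        (hv R (Sum.inl 0) * hv R (Sum.inr (Sum.inr 0))) = _
      have := hv_mul R
      linear_combination (hv R (Sum.inr (Sum.inr 0))) * this

end Pool.Agent.L5helper68.GO
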