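import Pool.Agent.L5helper68.GO.Coh
import Pool.Agent.L5helper68.GO.Tor
import Pool.Agent.Y116.UV.Space
import Pool.Agent.Z125.UN.Bnd

/-!
# Classes of simple objects and closed-open decompositions
-/

set_option autoImplicit false

open CategoryTheory CategoryTheory.Limits AlgebraicGeometry Pool.Agent.Y116.UV Pool.Agent.Z125.UN

namespace Pool.Agent.L5helper68.GO

universe v u

variable {K : Type} [Field K] {C : Type u} [Category.{v} C] [Abelian C] [HasShift C ℤ]

section twist

lemma simple_shift (S : C) [Simple S] (n : ℤ) : Simple (S⟦n⟧) :=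
  simple_obj (shiftFunctor C n) S

lemma simple_of_iso {A B : C} (e : A ≅ B) [Simple A] : Simple B := Simple.of_iso e.symm

lemma subquotient_shift {S M : C} (n : ℤ) (h : IsSubquotient S M) :
    IsSubquotient (S⟦n⟧) (M⟦n⟧) := h.map (shiftFunctor C n)

lemma subquotient_unshift {S M : C} (n : ℤ) (h : IsSubquotient (S⟦n⟧) (M⟦n⟧)) :
    IsSubquotient S M :=
  ((subquotient_shift (-n) h).iso_left (shiftShiftNeg S n)).iso_right (shiftShiftNeg M n)

/-- The class `Q` of objects is closed under isomorphisms and Tate twists. -/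
structure TwistClosed (Q : C → Prop) : Prop where
  iso : ∀ {A B : C}, (A ≅ B) → Q A → Q B
  twist : ∀ {A : C} (n : ℤ), Q A → Q (A⟦n⟧)

lemma TwistClosed.untwist {Q : C → Prop} (hQ : TwistClosed Q) {A : C} (n : ℤ) (h : Q (A⟦n⟧)) :
    Q A := hQ.iso (shiftShiftNeg A n) (hQ.twist (-n) h)

end twist

/-- all simple subquotients of the cohomology of `X` are in `Q` -/
def AllIn (Hc : Sch K → ℕ → C) (Q : C → Prop) (X : Sch K) : Prop :=
  ∀ (n : ℕ) (S : C), Simple S → IsSubquotient S (Hc X n) → Q S

section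

variable {Hc : Sch K → ℕ → C} (hH : IsCompactCohomology Hc) {Q : C → Prop} (hQ : TwistClosed Q)

include hH

lemma allIn_iso {X Y : Sch K} (hX : FT True X) (e : Nonempty (X ≅ Y)) (h : AllIn Hc Q X) :
    AllIn Hc Q Y := by
  intro n S hS hs
  obtain ⟨f⟩ := hH.iso hX e n
  exact h n S hS (hs.iso_right f.symm)

include hQ

lemma allIn_torus (A : Type) [CommRing A] [Algebra K A] [Algebra.FiniteType K A]
    (h : AllIn Hc Q (aff K (LaurentPolynomial A))) : AllIn Hc Q (aff K A) := by
  intro n S hS hs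
  obtain ⟨s, r, hsr⟩ := hH.torus A n
  have := simple_shift S (-1)
  exact hQ.untwist (-1) (h (n + 2) _ this ((subquotient_shift (-1) hs).retract s r hsr))

lemma allIn_bundle (A : Type) [CommRing A] [Algebra K A] [Algebra.FiniteType K A] (m : ℕ)
    (f : Fin m → A) (U : Sch K) (j : U ⟶ aff K A) (hj : IsOpenImmersion j.left)
    (hr : Set.range j.left = {x : PrimeSpectrum A | ∃ l, f l ∉ x.asIdeal}) :
    AllIn Hc Q (aff K (Jou f)) ↔ AllIn Hc Q U := by
  obtain ⟨h1, h2⟩ := hH.bundle A m f U j hj hr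
  constructor
  · intro h n S hS hs
    obtain ⟨e⟩ := h1 n
    have := simple_shift S (-((m - 1 : ℕ) : ℤ))
    exact hQ.untwist _ (h _ _ this ((subquotient_shift _ hs).iso_right e.symm))
  · intro h n S hS hs
    by_cases hn : n < 2 * (m - 1)
    · exact absurd hs (not_subquotient_zero (h2 n hn))
    · obtain ⟨k, rfl⟩ : ∃ k, n = k + 2 * (m - 1) := ⟨n - 2 * (m - 1), by omega⟩
      obtain ⟨e⟩ := h1 k
      have h3 := simple_shift S ((m - 1 : ℕ) : ℤ)
      have h4 := ((subquotient_shift ((m - 1 : ℕ) : ℤ) (hs.iso_right e))).iso_right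
        (shiftNegShift (Hc U k) ((m - 1 : ℕ) : ℤ))
      exact hQ.untwist _ (h k _ h3 h4)

lemma allIn_point (h3 : AllIn Hc Q (hypS (one3 K))) : AllIn Hc Q (aff K K) := by
  have : Algebra.FiniteType K (LaurentPolynomial K) := ft_laurent K
  have : Algebra.FiniteType K (L2 K) := ft_laurent (R := K) (LaurentPolynomial K)
  refine allIn_torus hH hQ K (allIn_torus hH hQ _ (allIn_iso hH (X := hypS (one3 K)) ?_ ?_ h3))
  · exact ft_aff True
  · exact ⟨(affIso (eqL K)).symm⟩

lemma allIn_space (h1 : AllIn Hc Q (aff K K)) (n : ℕ) :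
    AllIn Hc Q (aff K (MvPolynomial (Fin n) K)) := by
  have h2 := (allIn_bundle hH hQ K (n + 1) (f1 K n) (aff K K) (𝟙 _) inferInstance
    (range_id n)).mpr h1
  exact allIn_iso hH (ft_aff True) ⟨(affIso (jouOne K n)).symm⟩ h2

/-- The property that all simple subquotients of the cohomology are in `Q` has the closure
properties `Bnd`. -/
theorem bnd_allIn (h3 : AllIn Hc Q (aff K K)) : Bnd True (AllIn Hc Q) where
  iso h e hX := allIn_iso hH h e hX
  total i j h ht hZ hU := by
    intro n S hS hs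
    obtain ⟨a, b, d, h0, he⟩ := hH.localization i j h ht
    obtain ⟨⟨w, h1⟩, -, -⟩ := he n
    rcases subquotient_exact _ _ w h1 hs with h2 | h2
    · exact hU n S hS h2
    · exact hZ n S hS h2
  opened i j h ht hZ hX := by
    intro n S hS hs
    obtain ⟨a, b, d, h0, he⟩ := hH.localization i j h ht
    rcases n with _ | n
    · exact hX 0 S hS (hs.of_mono (a 0))
    · obtain ⟨-, -, w, h1⟩ := he n
      rcases subquotient_exact _ _ w h1 hs with h2 | h2
      · exact hZ n S hS h2
      · exact hX _ S hS h2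
  closed i j h ht hX hU := by
    intro n S hS hs
    obtain ⟨a, b, d, h0, he⟩ := hH.localization i j h ht
    obtain ⟨-, ⟨w, h1⟩, -⟩ := he n
    rcases subquotient_exact _ _ w h1 hs with h2 | h2
    · exact hX n S hS h2
    · exact hU _ S hS h2
  space := allIn_space hH hQ h3
  jouanolou A _ _ _ m f U j hj hr h := (allIn_bundle hH hQ A m f U j hj hr).mp h
  torus A _ _ _ h := allIn_torus hH hQ A h
  bundle A _ _ _ m f U j hj hr h := (allIn_bundle hH hQ A m f U j hj hr).mpr h

end

end Pool.Agent.L5helper68.GO
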