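import Pool.Agent.L5helper68.GO.Sub
import Pool.Agent.Y116.UV.Defs

/-!
# Cohomology with compact support, axiomatically
-/

set_option autoImplicit false

open CategoryTheory CategoryTheory.Limits AlgebraicGeometry Pool.Agent.Y116.UV

namespace Pool.Agent.L5helper68.GO

universe v u

variable {K : Type} [Field K] {C : Type u} [Category.{v} C] [Abelian C] [HasShift C ℤ]

/-- The standard properties of the cohomology `H_c^i` with compact support of the separated schemes of
finite type over the field `K`, with values in an abelian category `C` with Tate twists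
`A ↦ A(n) = A⟦n⟧`.

* `iso`: isomorphic schemes have isomorphic cohomology;
* `localization`: the long exact sequence `H_c^n(U) → H_c^n(X) → H_c^n(Z) → H_c^(n+1)(U)` for a closed
  subscheme `Z` of `X` with complement `U`, beginning with `0 → H_c^0(U)`;
* `bundle`: for the affine bundle `Y = Spec A[w_1, …, w_m] / (∑ f_l w_l - 1) → U` with fibre
  `𝔸^(m-1)` over the complement `U` of `f = 0` in `Spec A`, `H_c^(i+2(m-1))(Y) = H_c^i(U)(-(m-1))`, and
  `H_c^i(Y) = 0` for `i < 2(m-1)`;
* `torus`: `H_c^i(X)(-1)` is a direct summand of `H_c^(i+2)(X × 𝔾_m)`. -/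
structure IsCompactCohomology (Hc : Sch K → ℕ → C) : Prop where
  iso : ∀ {X Y : Sch K}, FT True X → Nonempty (X ≅ Y) → ∀ n, Nonempty (Hc X n ≅ Hc Y n)
  localization : ∀ {Z X U : Sch K} (i : Z ⟶ X) (j : U ⟶ X), FT True X → IsTriple i j →
    ∃ (a : ∀ n, Hc U n ⟶ Hc X n) (b : ∀ n, Hc X n ⟶ Hc Z n) (d : ∀ n, Hc Z n ⟶ Hc U (n + 1)),
      Mono (a 0) ∧ ∀ n, (∃ w, (ShortComplex.mk (a n) (b n) w).Exact) ∧
        (∃ w, (ShortComplex.mk (b n) (d n) w).Exact) ∧
        ∃ w, (ShortComplex.mk (d n) (a (n + 1)) w).Exact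
  bundle : ∀ (A : Type) [CommRing A] [Algebra K A] [Algebra.FiniteType K A] (m : ℕ)
    (f : Fin m → A) (U : Sch K) (j : U ⟶ aff K A), IsOpenImmersion j.left →
    Set.range j.left = {x : PrimeSpectrum A | ∃ l, f l ∉ x.asIdeal} →
    (∀ n, Nonempty (Hc (aff K (Jou f)) (n + 2 * (m - 1)) ≅ (Hc U n)⟦-((m - 1 : ℕ) : ℤ)⟧)) ∧
      ∀ n, n < 2 * (m - 1) → IsZero (Hc (aff K (Jou f)) n)
  torus : ∀ (A : Type) [CommRing A] [Algebra K A] [Algebra.FiniteType K A] (n : ℕ),
    ∃ (s : (Hc (aff K A) n)⟦(-1 : ℤ)⟧ ⟶ Hc (aff K (LaurentPolynomial A)) (n + 2))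
      (r : Hc (aff K (LaurentPolynomial A)) (n + 2) ⟶ (Hc (aff K A) n)⟦(-1 : ℤ)⟧), s ≫ r = 𝟙 _

/-- Some Tate twist of `S` is a subquotient of the cohomology `H X i` of `X` in some degree `i`. -/
def OccursIn (H : Sch K → ℕ → C) (S : C) (X : Sch K) : Prop :=
  ∃ (n : ℤ) (i : ℕ), IsSubquotient (S⟦n⟧) (H X i)

/-- The standard properties of étale cohomology `H`, of étale cohomology with compact support `Hc` and
of the duality `D` of representations.

* `compact`: the properties of `Hc`;
* `dual`: the dual of a simple object is simple;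
* `poincare`: Poincaré duality for smooth `X`; `H X i` is the sum over the connected components of `X`
  of twists of the duals of the groups `Hc _ (2 d - i)`, so that `S` occurs in `H` of `X` if and only
  if its dual occurs in `Hc` of `X`;
* `descent`: the simple subquotients of the cohomology of any `X` occur in the cohomology of smooth
  schemes of dimension at most the one of `X` (cohomological descent for alterations). -/
structure IsEtaleCohomology (H Hc : Sch K → ℕ → C) (D : C → C) : Prop where
  compact : IsCompactCohomology Hc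
  dual : ∀ S : C, Simple S → Simple (D S)
  poincare : ∀ X : Sch K, FT True X → Smooth X.hom → ∀ S : C, Simple S →
    (OccursIn H S X ↔ OccursIn Hc (D S) X)
  descent : ∀ X : Sch K, FT True X → ∀ S : C, Simple S → OccursIn H S X →
    ∃ Y : Sch K, FT True Y ∧ Smooth Y.hom ∧
      topologicalKrullDim Y.left ≤ topologicalKrullDim X.left ∧ OccursIn H S Y

end Pool.Agent.L5helper68.GO
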