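import Pool.Agent.L5helper68.GO.Cls
import Pool.Agent.L5helper68.GO.Gen
import Pool.Agent.Z125.UN.Sym
import Pool.Agent.Z125.UN.Grad

/-!
# Simple objects in the cohomology of schemes and of the hypersurfaces `T(x, y, z) = 1`
-/

set_option autoImplicit false

open CategoryTheory CategoryTheory.Limits AlgebraicGeometry Pool.Agent.Y116.UV Pool.Agent.Z125.UN

namespace Pool.Agent.L5helper68.GO

universe v u

variable {K : Type} [Field K] {C : Type u} [Category.{v} C] [Abelian C] [HasShift C ℤ]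

lemma OccursIn.iso {H : Sch K → ℕ → C} {A B : C} {X : Sch K} (e : A ≅ B) (h : OccursIn H A X) :
    OccursIn H B X := by
  obtain ⟨n, i, h⟩ := h
  exact ⟨n, i, h.iso_left ((shiftFunctor C n).mapIso e)⟩

lemma OccursIn.twist {H : Sch K → ℕ → C} {A : C} {X : Sch K} (n : ℤ) (h : OccursIn H A X) :
    OccursIn H (A⟦n⟧) X := by
  obtain ⟨m, i, h⟩ := h
  exact ⟨m - n, i, h.iso_left ((shiftFunctorAdd' C n (m - n) m (by omega)).app A)⟩

lemma occursIn_of_sub {H : Sch K → ℕ → C} {A : C} {X : Sch K} {i : ℕ}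
    (h : IsSubquotient A (H X i)) : OccursIn H A X :=
  ⟨0, i, h.iso_left ((shiftFunctorZero C ℤ).symm.app A)⟩

/-- the objects occurring in the cohomology of a scheme in a class -/
def Occ (H : Sch K → ℕ → C) (F : Sch K → Prop) (A : C) : Prop := ∃ X, F X ∧ OccursIn H A X

lemma occ_twistClosed (H : Sch K → ℕ → C) (F : Sch K → Prop) : TwistClosed (Occ H F) where
  iso := fun e ⟨X, hX, h⟩ => ⟨X, hX, h.iso e⟩
  twist := fun n ⟨X, hX, h⟩ => ⟨X, hX, h.twist n⟩

lemma allIn_occ (H : Sch K → ℕ → C) {F : Sch K → Prop} {X : Sch K} (hX : F X) :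
    AllIn H (Occ H F) X := fun _ _ _ hs => ⟨X, hX, occursIn_of_sub hs⟩

lemma AllIn.of_occursIn {H : Sch K → ℕ → C} {Q : C → Prop} (hQ : TwistClosed Q) {X : Sch K}
    (h : AllIn H Q X) {S : C} [Simple S] (hS : OccursIn H S X) : Q S := by
  obtain ⟨n, i, hs⟩ := hS
  exact hQ.untwist n (h i _ (simple_shift S n) hs)

/-- some hypersurface `T = 1` with coefficients in `S` -/
def IsTri (S : Set K) (X : Sch K) : Prop :=
  ∃ (a b c : ℕ) (T : Fin a → Fin b → Fin c → K), (∀ i j k, T i j k ∈ S) ∧ X = hypS T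

/-- some hypersurface `T = 1` with a block of at most `c` variables -/
def IsTriB (m : ℕ) (X : Sch K) : Prop :=
  ∃ (a b c : ℕ) (T : Fin a → Fin b → Fin c → K), (a ≤ m ∨ b ≤ m ∨ c ≤ m) ∧ X = hypS T

section

variable {Hc : Sch K → ℕ → C} (hH : IsCompactCohomology Hc)

include hH

/-- The simple objects which occur in the cohomology with compact support of some scheme occur in the
one of some hypersurface `T = 1`, where the coefficients are `0`, `1` or elements of a given set which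
generates the field. -/
theorem occ_tri {G : Set K} (hG : Subfield.closure G = ⊤) {X : Sch K} (hX : FT True X) {S : C}
    [Simple S] (h : OccursIn Hc S X) : Occ Hc (IsTri (insert 0 (insert 1 G))) S := by
  have h0 : (0 : K) ∈ insert 0 (insert 1 G) := Set.mem_insert _ _
  have h1 : (1 : K) ∈ insert 0 (insert 1 G) := Set.mem_insert_of_mem _ (Set.mem_insert _ _)
  have hQ := occ_twistClosed Hc (IsTri (insert 0 (insert 1 G)))
  have hP := bnd_allIn hH hQ (allIn_point hH hQ (allIn_occ Hc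
    ⟨1, 1, 1, one3 K, fun _ _ _ => h1, rfl⟩))
  have h2 : AllIn Hc (Occ Hc (IsTri (insert 0 (insert 1 G)))) X := universal hP.toUni h0 h1
    (fun a b c T hT => allIn_occ Hc ⟨a, b, c, T, hT, rfl⟩)
    (presents_gen h0 h1 hG fun _ hx => Set.mem_insert_of_mem _ (Set.mem_insert_of_mem _ hx)) X hX
  exact h2.of_occursIn hQ h

theorem occ_triB [PerfectField K] {n : ℕ} {X : Sch K} (hX : FT True X)
    (hn : topologicalKrullDim X.left ≤ n) {S : C} [Simple S] (h : OccursIn Hc S X) :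
    Occ Hc (IsTriB (n + 2)) S := by
  have hQ := occ_twistClosed Hc (IsTriB (K := K) (n + 2))
  have hP := bnd_allIn hH hQ (allIn_point hH hQ (allIn_occ Hc
    ⟨1, 1, 1, one3 K, Or.inl (by omega), rfl⟩))
  have h1 : AllIn Hc (Occ Hc (IsTriB (n + 2))) X := (dim_tri hP n).mpr
    (fun a b T => allIn_occ Hc ⟨a, b, n + 2, T, Or.inr (Or.inr le_rfl), rfl⟩) X hX hn
  exact h1.of_occursIn hQ h

/-- a smooth scheme of dimension at most `n` -/
def IsSm (n : ℕ) (X : Sch K) : Prop :=
  FT True X ∧ Smooth X.hom ∧ topologicalKrullDim X.left ≤ n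

omit hH in
lemma isSm_point (n : ℕ) : IsSm n (aff K K) := by
  refine ⟨ft_aff True, smooth_aff inferInstance, ?_⟩
  rw [topDim_aff, ringKrullDim_eq_zero_of_field]
  exact_mod_cast Nat.zero_le n

theorem occ_sm [PerfectField K] {n a b c : ℕ} (T : Fin a → Fin b → Fin c → K)
    (hm : a ≤ n + 2 ∨ b ≤ n + 2 ∨ c ≤ n + 2) {S : C} [Simple S] (h : OccursIn Hc S (hypS T)) :
    Occ Hc (IsSm n) S := by
  have hQ := occ_twistClosed Hc (IsSm (K := K) n)
  have hP := bnd_allIn hH hQ (allIn_occ Hc (isSm_point n))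
  have h1 : ∀ X : Sch K, FT True X → topologicalKrullDim X.left ≤ n → AllIn Hc (Occ Hc (IsSm n)) X :=
    dim_smooth hP n fun X hX hs hn => allIn_occ Hc ⟨hX, hs, hn⟩
  have h2 : ∀ I : Ideal (MvPolynomial (Fin (n + 1)) K),
      AllIn Hc (Occ Hc (IsSm n)) (aff K (MvPolynomial (Fin (n + 1)) K ⧸ I)) :=
    dim_to_closed hP fun A _ _ _ hA => h1 _ (ft_aff True) (by rw [topDim_aff]; exact hA)
  have h3 : AllIn Hc (Occ Hc (IsSm n)) (hypS T) :=
    of_block hP (fun a b c' hc' T => to_tri hP h2 a b c' hc' T) T hm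
  exact h3.of_occursIn hQ h

end

section

variable {H Hc : Sch K → ℕ → C} {D : C → C} (hE : IsEtaleCohomology H Hc D)

include hE

theorem main_all (S : C) [Simple S] {G : Set K} (hG : Subfield.closure G = ⊤) :
    (∃ X : Sch K, FT True X ∧ OccursIn H S X) ↔
      ∃ (a b c : ℕ) (T : Fin a → Fin b → Fin c → K), (∀ i j k, T i j k ∈ insert 0 (insert 1 G)) ∧
        OccursIn H S (hypS T) := by
  constructor
  · rintro ⟨X, hX, h⟩
    obtain ⟨Y, hY, hs, -, h'⟩ := hE.descent X hX S inferInstance h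
    have := hE.dual S inferInstance
    obtain ⟨_, ⟨a, b, c, T, hT, rfl⟩, h2⟩ := occ_tri hE.compact hG hY
      ((hE.poincare Y hY hs S inferInstance).mp h')
    exact ⟨a, b, c, T, hT, (hE.poincare _ (ft_aff True) (smooth_hypS T) S inferInstance).mpr h2⟩
  · rintro ⟨a, b, c, T, -, h⟩
    exact ⟨hypS T, ft_aff True, h⟩

theorem main_dim [PerfectField K] (S : C) [Simple S] (n : ℕ) :
    (∃ X : Sch K, FT True X ∧ topologicalKrullDim X.left ≤ n ∧ OccursIn H S X) ↔
      ∃ (a b c : ℕ) (T : Fin a → Fin b → Fin c → K), (a ≤ n + 2 ∨ b ≤ n + 2 ∨ c ≤ n + 2) ∧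
        OccursIn H S (hypS T) := by
  have := hE.dual S inferInstance
  constructor
  · rintro ⟨X, hX, hn, h⟩
    obtain ⟨Y, hY, hs, hd, h'⟩ := hE.descent X hX S inferInstance h
    obtain ⟨_, ⟨a, b, c, T, hm, rfl⟩, h2⟩ := occ_triB hE.compact hY (hd.trans hn)
      ((hE.poincare Y hY hs S inferInstance).mp h')
    exact ⟨a, b, c, T, hm, (hE.poincare _ (ft_aff True) (smooth_hypS T) S inferInstance).mpr h2⟩
  · rintro ⟨a, b, c, T, hm, h⟩
    obtain ⟨X, ⟨hX, hs, hn⟩, h2⟩ := occ_sm hE.compact T hm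
      ((hE.poincare _ (ft_aff True) (smooth_hypS T) S inferInstance).mp h)
    exact ⟨X, hX, hn, (hE.poincare X hX hs S inferInstance).mpr h2⟩

end

end Pool.Agent.L5helper68.GO
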