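import Pool.Agent.Y116.UV.Pres

/-!
# Presentations with few coefficients

If the field `K` is generated by the set `S`, then every `K`-algebra of finite type has a presentation by
polynomials with coefficients in `S ∪ {0, 1}`.
-/

set_option autoImplicit false

open MvPolynomial Pool.Agent.Y116.UV

namespace Pool.Agent.L5helper68.GO

variable {R : Type} [CommRing R]

/-- A finite presentation by polynomials with coefficients in `S`. -/
structure PS (S : Set R) (A : Type) [CommRing A] [Algebra R A] where
  V : Type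
  fin : Finite V
  φ : MvPolynomial V R →ₐ[R] A
  G : Set (MvPolynomial V R)
  finG : G.Finite
  surj : Function.Surjective φ
  ker : RingHom.ker φ = Ideal.span G
  coef : ∀ g ∈ G, ∀ m, coeff m g ∈ S

variable {A : Type} [CommRing A] [Algebra R A] {S : Set R}

/-- The values of the variables. -/
def PS.marks (P : PS S A) : Set A := Set.range fun v => P.φ (X v)

section

variable (P : PS S A) (p : MvPolynomial P.V R) (r : MvPolynomial (Option P.V) R)

/-- the homomorphism with one more variable -/
noncomputable def eφ : MvPolynomial (Option P.V) R →ₐ[R] A :=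
  aeval fun o => o.elim (P.φ p) fun v => P.φ (X v)

/-- the new set of relations -/
def eG : Set (MvPolynomial (Option P.V) R) := (rename some '' P.G) ∪ {r}

lemma eφ_rename (q : MvPolynomial P.V R) : eφ P p (rename some q) = P.φ q := by
  have h : (eφ P p).comp (rename some) = P.φ := by
    apply MvPolynomial.algHom_ext
    intro v
    rw [AlgHom.comp_apply, rename_X, eφ, aeval_X]
    rfl
  exact DFunLike.congr_fun h q

lemma eφ_none : eφ P p (X none) = P.φ p := by
  rw [eφ, aeval_X]
  rfl

lemma eφ_some (v : P.V) : eφ P p (X (some v)) = P.φ (X v) := by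
  rw [eφ, aeval_X]
  rfl

lemma ren_mem {q : MvPolynomial P.V R} (hq : P.φ q = 0) : rename some q ∈ Ideal.span (eG P r) := by
  have h0 : q ∈ Ideal.span P.G := by
    rw [← P.ker]
    exact hq
  have h1 : Ideal.map (rename some : MvPolynomial P.V R →ₐ[R] _).toRingHom (Ideal.span P.G) ≤
      Ideal.span (eG P r) := by
    rw [Ideal.map_span]
    exact Ideal.span_mono fun x hx => Or.inl hx
  exact h1 (Ideal.mem_map_of_mem (rename some : MvPolynomial P.V R →ₐ[R] _).toRingHom h0)

variable (h0 : eφ P p r = 0) (h1 : X none - rename some p ∈ Ideal.span (eG P r))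

include h0

lemma span_le_ker : Ideal.span (eG P r) ≤ RingHom.ker (eφ P p) := by
  rw [Ideal.span_le]
  rintro x (⟨y, hy, rfl⟩ | rfl)
  · change eφ P p (rename some y) = 0
    rw [eφ_rename]
    have : y ∈ RingHom.ker P.φ := by
      rw [P.ker]
      exact Ideal.subset_span hy
    exact this
  · exact h0

include h1

lemma eker : RingHom.ker (eφ P p) = Ideal.span (eG P r) := by
  apply le_antisymm
  · intro q hq
    let J := Ideal.span (eG P r)
    let ψ : MvPolynomial (Option P.V) R →ₐ[R] MvPolynomial P.V R :=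
      aeval fun o => o.elim p X
    have h2 : Ideal.Quotient.mkₐ R J = ((Ideal.Quotient.mkₐ R J).comp (rename some)).comp ψ := by
      apply MvPolynomial.algHom_ext
      intro o
      rw [AlgHom.comp_apply, AlgHom.comp_apply]
      have h3 : ψ (X o) = o.elim p X := aeval_X _ _
      rw [h3]
      match o with
      | none =>
        have h4 : Ideal.Quotient.mkₐ R J (X none - rename some p) = 0 :=
          Ideal.Quotient.eq_zero_iff_mem.mpr h1
        rw [map_sub, sub_eq_zero] at h4
        exact h4
      | some v =>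
        change _ = Ideal.Quotient.mkₐ R J (rename some (X v))
        rw [rename_X]
    have h3 : q - rename some (ψ q) ∈ J := by
      rw [← Ideal.Quotient.eq_zero_iff_mem, map_sub, sub_eq_zero]
      exact DFunLike.congr_fun h2 q
    have h4 : eφ P p (q - rename some (ψ q)) = 0 := span_le_ker P p r h0 h3
    have h5 : P.φ (ψ q) = 0 := by
      rw [map_sub, eφ_rename] at h4
      have : eφ P p q = 0 := hq
      rw [this, zero_sub, neg_eq_zero] at h4
      exact h4
    have h7 := J.add_mem h3 (ren_mem P r h5)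
    rwa [sub_add_cancel] at h7
  · exact span_le_ker P p r h0

/-- The presentation with one more variable. -/
noncomputable def PS.ext (hS : (0 : R) ∈ S) (hr : ∀ m, coeff m r ∈ S) : PS S A where
  V := Option P.V
  fin := by
    have := P.fin
    infer_instance
  φ := eφ P p
  G := eG P r
  finG := (P.finG.image _).union (Set.finite_singleton _)
  surj := fun a => by
    obtain ⟨q, hq⟩ := P.surj a
    exact ⟨rename some q, by rw [eφ_rename, hq]⟩
  ker := eker P p r h0 h1
  coef := by
    classical
    rintro x (⟨y, hy, rfl⟩ | rfl) m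
    · by_cases hm : ∃ u : P.V →₀ ℕ, u.mapDomain some = m ∧ coeff u y ≠ 0
      · obtain ⟨u, rfl, -⟩ := hm
        rw [coeff_rename_mapDomain _ (Option.some_injective _)]
        exact P.coef y hy u
      · rw [coeff_rename_eq_zero]
        · exact hS
        · intro u hu
          by_contra h
          exact hm ⟨u, hu, h⟩
    · exact hr m

lemma ext_marks (hS : (0 : R) ∈ S) (hr : ∀ m, coeff m r ∈ S) :
    P.marks ⊆ (P.ext p r h0 h1 hS hr).marks := by
  rintro _ ⟨v, rfl⟩
  exact ⟨some v, eφ_some P p v⟩

lemma ext_mem (hS : (0 : R) ∈ S) (hr : ∀ m, coeff m r ∈ S) :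
    P.φ p ∈ (P.ext p r h0 h1 hS hr).marks := ⟨none, eφ_none P p⟩

end

section coef

variable {V : Type} (h0 : (0 : R) ∈ S)

include h0

lemma coef_two {a b : V →₀ ℕ} (h : a ≠ b) {x y : R} (hx : x ∈ S) (hy : y ∈ S) (m : V →₀ ℕ) :
    coeff m (monomial a x + monomial b y) ∈ S := by
  classical
  rw [coeff_add, coeff_monomial, coeff_monomial]
  by_cases h1 : a = m
  · have h2 : b ≠ m := fun h2 => h (h1.trans h2.symm)
    rwa [if_pos h1, if_neg h2, add_zero]
  · rw [if_neg h1, zero_add]
    split_ifs
    · exact hy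
    · exact h0

lemma coef_three {a b c : V →₀ ℕ} (h : a ≠ b) (h' : a ≠ c) (h'' : b ≠ c) {x y z : R} (hx : x ∈ S)
    (hy : y ∈ S) (hz : z ∈ S) (m : V →₀ ℕ) :
    coeff m (monomial a x + (monomial b y + monomial c z)) ∈ S := by
  classical
  rw [coeff_add, coeff_monomial]
  by_cases h1 : a = m
  · subst h1
    rw [coeff_add, coeff_monomial, coeff_monomial, if_pos rfl, if_neg h.symm, if_neg h'.symm,
      add_zero, add_zero]
    exact hx
  · rw [if_neg h1, zero_add]
    exact coef_two h0 h'' hy hz m

end coef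

/-- The elements which can be made values of variables in all presentations extending `P0`. -/
def RS (P0 : PS S A) : Set A :=
  {a | ∀ P : PS S A, P0.marks ⊆ P.marks → ∃ P' : PS S A, P.marks ⊆ P'.marks ∧ a ∈ P'.marks}

variable {P0 : PS S A}

lemma rs_mark {a : A} (h : a ∈ P0.marks) : a ∈ RS P0 := fun P hP => ⟨P, le_rfl, hP h⟩

section ops

variable (h0 : (0 : R) ∈ S) (h1 : (1 : R) ∈ S)

include h0 h1

/-- a new variable `w` with the relation `- w + q = 0` -/
lemma step (P : PS S A) (e : P.V) (he : P.φ (X e) = -1) (q : MvPolynomial P.V R)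
    (hq : ∀ m, coeff m (X (some e) * X none + rename some q : MvPolynomial (Option P.V) R) ∈ S) :
    ∃ P' : PS S A, P.marks ⊆ P'.marks ∧ P.φ q ∈ P'.marks := by
  have k0 : eφ P q (X (some e) * X none + rename some q) = 0 := by
    rw [map_add, map_mul, eφ_rename, eφ_none, eφ_some, he]
    ring
  have k1 : X none - rename some q ∈ Ideal.span (eG P (X (some e) * X none + rename some q)) := by
    have h2 : rename some (X e + 1 : MvPolynomial P.V R) ∈
        Ideal.span (eG P (X (some e) * X none + rename some q)) := by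
      apply ren_mem
      rw [map_add, map_one, he]
      ring
    have h3 : (X (some e) * X none + rename some q : MvPolynomial (Option P.V) R) ∈
        Ideal.span (eG P (X (some e) * X none + rename some q)) :=
      Ideal.subset_span (Or.inr rfl)
    have h4 := Ideal.sub_mem _ (Ideal.mul_mem_left _ (X none) h2) h3
    have h5 : X none * rename some (X e + 1 : MvPolynomial P.V R) -
        (X (some e) * X none + rename some q) = X none - rename some q := by
      rw [map_add, map_one, rename_X]
      ring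
    rwa [h5] at h4
  exact ⟨P.ext q _ k0 k1 h0 hq, ext_marks P q _ k0 k1 h0 hq, ext_mem P q _ k0 k1 h0 hq⟩

lemma e_none_ne {V : Type} (e : V) (m : V →₀ ℕ) :
    (Finsupp.single (some e) 1 + Finsupp.single none 1 : Option V →₀ ℕ) ≠
      Finsupp.mapDomain some m := by
  intro h
  have h1 := congrArg (fun f : Option V →₀ ℕ => f none) h
  simp only [Finsupp.add_apply] at h1
  rw [Finsupp.mapDomain_of_notMem_range _ _ (by simp), Finsupp.single_eq_of_ne (by simp)] at h1
  simp at h1

lemma step_mono (P : PS S A) (e : P.V) (he : P.φ (X e) = -1) (m : P.V →₀ ℕ) {x : R} (hx : x ∈ S) :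
    ∃ P' : PS S A, P.marks ⊆ P'.marks ∧ P.φ (monomial m x) ∈ P'.marks := by
  apply step h0 h1 P e he
  intro k
  rw [rename_monomial, X, X, monomial_mul, one_mul]
  exact coef_two h0 (e_none_ne h0 h1 e m) h1 hx k

lemma rs_mul (hm : -1 ∈ P0.marks) {a b : A} (ha : a ∈ RS P0) (hb : b ∈ RS P0) :
    a * b ∈ RS P0 := by
  classical
  intro P hP
  obtain ⟨P1, k1, i, hi⟩ := ha P hP
  obtain ⟨P2, k2, j, hj⟩ := hb P1 (hP.trans k1)
  obtain ⟨e, he⟩ := (hP.trans (k1.trans k2)) hm
  obtain ⟨i', hi'⟩ := k2 ⟨i, hi⟩
  obtain ⟨P3, k3, h3⟩ := step_mono h0 h1 P2 e he (Finsupp.single i' 1 + Finsupp.single j 1) h1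
  refine ⟨P3, k1.trans (k2.trans k3), ?_⟩
  have h4 : (monomial (Finsupp.single i' 1 + Finsupp.single j 1) 1 : MvPolynomial P2.V R) =
      X i' * X j := by
    rw [X, X, monomial_mul, one_mul]
  rw [h4, map_mul] at h3
  have h5 : P2.φ (X i') * P2.φ (X j) = a * b := congrArg₂ (· * ·) hi' hj
  rwa [h5] at h3

lemma rs_const (hm : -1 ∈ P0.marks) {s : R} (hs : s ∈ S) : algebraMap R A s ∈ RS P0 := by
  intro P hP
  obtain ⟨e, he⟩ := hP hm
  obtain ⟨P3, k3, h3⟩ := step_mono h0 h1 P e he 0 hs
  refine ⟨P3, k3, ?_⟩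
  have h4 : (monomial 0 s : MvPolynomial P.V R) = algebraMap R _ s := rfl
  rwa [h4, AlgHom.commutes] at h3

lemma rs_add (hm : -1 ∈ P0.marks) {a b : A} (ha : a ∈ RS P0) (hb : b ∈ RS P0) :
    a + b ∈ RS P0 := by
  classical
  intro P hP
  obtain ⟨P1, k1, i, hi⟩ := ha P hP
  obtain ⟨P2, k2, j, hj⟩ := hb P1 (hP.trans k1)
  obtain ⟨e, he⟩ := (hP.trans (k1.trans k2)) hm
  obtain ⟨i', hi'⟩ := k2 ⟨i, hi⟩
  have hi'' : P2.φ (X i') = a := hi'
  have hj'' : P2.φ (X j) = b := hj
  have he'' : P2.φ (X e) = -1 := he
  -- `a + b = a + (-1) * (-b)`: first a variable for `-b`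
  obtain ⟨P3, k3, l, hl⟩ := step_mono h0 h1 P2 e he
    (Finsupp.single e 1 + Finsupp.single j 1) h1
  have hl' : P3.φ (X l) = -b := by
    have h4 : (monomial (Finsupp.single e 1 + Finsupp.single j 1) 1 : MvPolynomial P2.V R) =
        X e * X j := by
      rw [X, X, monomial_mul, one_mul]
    have h5 : P3.φ (X l) = P2.φ (monomial (Finsupp.single e 1 + Finsupp.single j 1) 1) := hl
    rw [h5, h4, map_mul, he'', hj'']
    ring
  obtain ⟨i3, hi3⟩ := k3 ⟨i', rfl⟩
  obtain ⟨e3, he3⟩ := k3 ⟨e, rfl⟩
  have hi3' : P3.φ (X i3) = a := by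
    have h5 : P3.φ (X i3) = P2.φ (X i') := hi3
    rw [h5, hi'']
  have he3' : P3.φ (X e3) = -1 := by
    have h5 : P3.φ (X e3) = P2.φ (X e) := he3
    rw [h5, he'']
  have hne : (Finsupp.single i3 1 : P3.V →₀ ℕ) ≠ Finsupp.single e3 1 + Finsupp.single l 1 := by
    intro h
    have h6 := congrArg Finsupp.degree h
    rw [map_add, Finsupp.degree_single, Finsupp.degree_single, Finsupp.degree_single] at h6
    omega
  obtain ⟨P4, k4, h4⟩ := step h0 h1 P3 e3 he3' (monomial (Finsupp.single i3 1) 1 +
    monomial (Finsupp.single e3 1 + Finsupp.single l 1) 1) (by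
      intro k
      rw [map_add, rename_monomial, rename_monomial, X, X, monomial_mul, one_mul]
      refine coef_three h0 (e_none_ne h0 h1 e3 _) (e_none_ne h0 h1 e3 _) ?_ h1 h1 h1 k
      intro h
      exact hne (Finsupp.mapDomain_injective (Option.some_injective _) h))
  refine ⟨P4, k1.trans (k2.trans (k3.trans k4)), ?_⟩
  have h5 : P3.φ (monomial (Finsupp.single i3 1) 1 +
      monomial (Finsupp.single e3 1 + Finsupp.single l 1) 1) = a + b := by
    have h6 : (monomial (Finsupp.single e3 1 + Finsupp.single l 1) 1 : MvPolynomial P3.V R) =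
        X e3 * X l := by
      rw [X, X, monomial_mul, one_mul]
    have h7 : (monomial (Finsupp.single i3 1) 1 : MvPolynomial P3.V R) = X i3 := rfl
    rw [h6, h7, map_add, map_mul, hi3', he3', hl']
    ring
  rwa [h5] at h4

end ops

end Pool.Agent.L5helper68.GO
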