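import Mathlib

/-!
# Subquotients in abelian categories
-/

set_option autoImplicit false

open CategoryTheory CategoryTheory.Limits

namespace Pool.Agent.L5helper68.GO

universe v u

/-- `S` is a subquotient of `M`: a quotient of a subobject. -/
def IsSubquotient {C : Type u} [Category.{v} C] (S M : C) : Prop :=
  ∃ (W : C) (i : W ⟶ M) (p : W ⟶ S), Mono i ∧ Epi p

section

variable {C : Type u} [Category.{v} C]

lemma IsSubquotient.of_mono {S M N : C} (f : M ⟶ N) [Mono f] (h : IsSubquotient S M) :
    IsSubquotient S N := by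
  obtain ⟨W, i, p, hi, hp⟩ := h
  exact ⟨W, i ≫ f, p, mono_comp _ _, hp⟩

lemma IsSubquotient.iso_right {S M N : C} (e : M ≅ N) (h : IsSubquotient S M) :
    IsSubquotient S N := h.of_mono e.hom

lemma IsSubquotient.iso_left {S S' M : C} (e : S ≅ S') (h : IsSubquotient S M) :
    IsSubquotient S' M := by
  obtain ⟨W, i, p, hi, hp⟩ := h
  exact ⟨W, i, p ≫ e.hom, hi, epi_comp _ _⟩

lemma IsSubquotient.map {D : Type*} [Category D] (F : C ⥤ D) [F.PreservesMonomorphisms]
    [F.PreservesEpimorphisms] {S M : C} (h : IsSubquotient S M) :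
    IsSubquotient (F.obj S) (F.obj M) := by
  obtain ⟨W, i, p, hi, hp⟩ := h
  exact ⟨F.obj W, F.map i, F.map p, inferInstance, inferInstance⟩

end

section

variable {C : Type u} [Category.{v} C] [Abelian C]

lemma IsSubquotient.of_epi {S M N : C} (f : N ⟶ M) [Epi f] (h : IsSubquotient S M) :
    IsSubquotient S N := by
  obtain ⟨W, i, p, hi, hp⟩ := h
  refine ⟨pullback f i, pullback.fst f i, pullback.snd f i ≫ p, inferInstance, epi_comp _ _⟩

lemma IsSubquotient.retract {S M N : C} (s : M ⟶ N) (r : N ⟶ M) (hs : s ≫ r = 𝟙 M)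
    (h : IsSubquotient S M) : IsSubquotient S N := by
  have : Mono s := mono_of_mono_fac hs
  exact h.of_mono s

lemma not_subquotient_zero {S M : C} [Simple S] (hM : IsZero M) : ¬ IsSubquotient S M := by
  rintro ⟨W, i, p, hi, hp⟩
  have hW : IsZero W := IsZero.of_mono i hM
  have hS : IsZero S := IsZero.of_epi p hW
  exact Simple.not_isZero S hS

/-- A simple subquotient of the middle term of an exact sequence is one of an outer term. -/
lemma subquotient_exact {A B D S : C} [Simple S] (f : A ⟶ B) (g : B ⟶ D) (w : f ≫ g = 0)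
    (h : (ShortComplex.mk f g w).Exact) (hB : IsSubquotient S B) :
    IsSubquotient S A ∨ IsSubquotient S D := by
  obtain ⟨W, i, p, hi, hp⟩ := hB
  let k := kernel.ι (i ≫ g)
  by_cases hq : k ≫ p = 0
  · right
    have : Mono (image.ι (i ≫ g)) := inferInstance
    have : Epi (cokernel.desc k p hq) := epi_of_epi_fac (cokernel.π_desc k p hq)
    have e : Abelian.coimage (i ≫ g) ≅ Abelian.image (i ≫ g) :=
      asIso (Abelian.coimageImageComparison (i ≫ g))
    have h1 : IsSubquotient S (Abelian.coimage (i ≫ g)) :=
      ⟨_, 𝟙 _, cokernel.desc k p hq, inferInstance, inferInstance⟩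
    exact (h1.iso_right e).of_mono (Abelian.image.ι (i ≫ g))
  · left
    have hep : Epi (k ≫ p) := epi_of_nonzero_to_simple hq
    have h1 : IsSubquotient S (kernel g) := by
      refine ⟨_, kernel.lift g (k ≫ i) ?_, k ≫ p, ?_, hep⟩
      · rw [Category.assoc]
        exact kernel.condition _
      · have : Mono (kernel.lift g (k ≫ i) (by rw [Category.assoc]; exact kernel.condition _) ≫
            kernel.ι g) := by
          rw [kernel.lift_ι]
          exact mono_comp _ _
        exact mono_of_mono _ (kernel.ι g)
    have h2 : Epi (kernel.lift g f w) := by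
      have := (ShortComplex.exact_iff_epi_kernel_lift (ShortComplex.mk f g w)).mp h
      exact this
    exact h1.of_epi (kernel.lift g f w)

end

end Pool.Agent.L5helper68.GO
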